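import Pool.Agent.H.MP_708f28_lc.E

open Pool.Agent.H.MP_708f28_lc

namespace Pool.Agent.Results.MP_708f28_lc.Main

theorem result : ¬ @MeasurableSet SF effros SFb ∧
    ∀ (Z : Type) [TopologicalSpace Z] [PolishSpace Z] [MeasurableSpace Z] [BorelSpace Z]
      (B : Set Z), MeasureTheory.AnalyticSet B →
        ∃ f : Z → SF, @Measurable _ _ _ effros f ∧ B = f ⁻¹' SFb :=
  ⟨notBorel, fun _ _ _ _ _ _ => hard⟩

end Pool.Agent.Results.MP_708f28_lc.Main
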